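import Pool.Agent.H160R3.Herm.Main
import Pool.Agent.Q213.GD.Main

/-! MP_ef2672_gt: almost every geometric progression of dimensions decides whether `γ_n / n`
converges, and all its limit points are seen along it. -/

open Filter Set MeasureTheory
open scoped Topology

namespace Pool.Agent.Results.MP_ef2672_gt.GeometricDimensions

open Pool.Agent.H160R3.Herm

theorem result :
    (∀ᵐ x : ℝ, 1 < x → ∀ c : ℝ, 0 < c → ∀ n : ℕ → ℕ,
      Tendsto (fun k => (n k : ℝ) / x ^ k) atTop (𝓝 c) →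
        {y : ℝ | MapClusterPt y atTop (fun k => hermite (n k) / (n k : ℝ))} =
          Icc (liminf (fun n : ℕ => hermite n / (n : ℝ)) atTop)
            (limsup (fun n : ℕ => hermite n / (n : ℝ)) atTop)) ∧
    ((∃ L : ℝ, Tendsto (fun n : ℕ => hermite n / (n : ℝ)) atTop (𝓝 L)) ↔
      volume {x : ℝ | 1 < x ∧ ∃ L : ℝ,
        Tendsto (fun k : ℕ => hermite ⌊x ^ k⌋₊ / (⌊x ^ k⌋₊ : ℝ)) atTop (𝓝 L)} ≠ 0) := by
  have e : (fun n : ℕ => hermite n / (n : ℝ)) = ratio := rfl
  have h1 := Pool.Agent.Q213.GD.geometric slowDec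
  have h2 := Pool.Agent.Q213.GD.decides slowDec
  rw [e]
  exact ⟨h1, h2⟩

end Pool.Agent.Results.MP_ef2672_gt.GeometricDimensions
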