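import Pool.Agent.Q219.HE.Eut

/-! MP_ef2672_gt: a stability version, with constants independent of the dimension, of Voronoi's
theorem that the lattices with the largest normalised minimum are eutactic: if `γ(L)` is close to
Hermite's constant `γ_n`, then the almost shortest vectors of `L` form, with suitable weights, an
almost tight frame, and the error is small in the trace norm. -/

namespace Pool.Agent.Results.MP_ef2672_gt.NearEutaxy

open Matrix Pool.Agent.H160R3.Herm Pool.Agent.TH220.HG Pool.Agent.Q219.HE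

/-- Let `L = A ℤⁿ` be a lattice with `γ_n ≤ (1 + ε) γ(L)` and least squared length `m` of a nonzero
vector, and let `η > ε > 0`. There are finitely many nonzero vectors of squared length at most
`(1 + η) m` in `L` and weights `p ≥ 0` with sum `1` such that
`|∑ p(v) ⟨v, T v⟩| ≤ ε (1 + η) / (η - ε) c m` for all symmetric matrices `T` with trace zero and
`|⟨y, T y⟩| ≤ c |y|²` for all `y`. -/
theorem result (n : ℕ) (hn : 0 < n) (A : Matrix (Fin n) (Fin n) ℝ) (hA : A.det ≠ 0) (ε η : ℝ)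
    (hε : 0 < ε) (hη : ε < η) (hopt : hermite n ≤ (1 + ε) * gam A) :
    ∃ (S : Finset (Fin n → ℤ)) (p : (Fin n → ℤ) → ℝ),
      (∀ w ∈ S, w ≠ 0 ∧ nsq A w ≤ (1 + η) * minSq A) ∧ (∀ w ∈ S, 0 ≤ p w) ∧ ∑ w ∈ S, p w = 1 ∧
      ∀ T : Matrix (Fin n) (Fin n) ℝ, T.IsSymm → T.trace = 0 → ∀ c : ℝ,
        (∀ y : Fin n → ℝ, |y ⬝ᵥ (T *ᵥ y)| ≤ c * (y ⬝ᵥ y)) →
        |∑ w ∈ S, p w * qf T A w| ≤ ε * (1 + η) / (η - ε) * c * minSq A :=
  eutaxy hn hA hε hη hopt

end Pool.Agent.Results.MP_ef2672_gt.NearEutaxy
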