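import Pool.Agent.H160R3.Herm.Main
import Pool.Agent.Q213.GD.RandomDec

/-! MP_ef2672_gt: random sets of dimensions with a bounded expected number of elements in
`[N, 2 N]` see all limit points of `γ_n / n` and decide whether it converges. -/

open Filter Set MeasureTheory ProbabilityTheory
open scoped Topology

namespace Pool.Agent.Results.MP_ef2672_gt.RandomDimensions

open Pool.Agent.H160R3.Herm

/-- the sums of `p` over the windows `[N, (1 + κ) N]` are bounded from below, for every `κ` -/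
def Thick (p : ℕ → ℝ) : Prop :=
  ∀ κ : ℝ, 0 < κ → ∃ c : ℝ, 0 < c ∧ ∀ᶠ N : ℕ in atTop,
    c ≤ ∑ n ∈ Finset.Icc N ⌊(1 + κ) * (N : ℝ)⌋₊, p n

theorem result (Ω : Type) [MeasurableSpace Ω] (P : Measure Ω) [IsProbabilityMeasure P]
    (A : ℕ → Set Ω) (hA : ∀ n, MeasurableSet (A n)) (hi : iIndepSet A P)
    (hp : Thick fun n => P.real (A n)) :
    (∀ᵐ ω ∂P, {y : ℝ | MapClusterPt y (atTop ⊓ 𝓟 {n | ω ∈ A n})
        (fun n : ℕ => hermite n / (n : ℝ))} =
      Icc (liminf (fun n : ℕ => hermite n / (n : ℝ)) atTop)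
        (limsup (fun n : ℕ => hermite n / (n : ℝ)) atTop)) ∧
    ((∃ L : ℝ, Tendsto (fun n : ℕ => hermite n / (n : ℝ)) atTop (𝓝 L)) ↔
      P {ω | ∃ L : ℝ, Tendsto (fun n : ℕ => hermite n / (n : ℝ))
        (atTop ⊓ 𝓟 {n | ω ∈ A n}) (𝓝 L)} ≠ 0) := by
  have e : (fun n : ℕ => hermite n / (n : ℝ)) = ratio := rfl
  have h1 := Q213.GD.random_slowDec slowDec hA hi hp
  rw [e]
  refine ⟨h1, Q213.GD.random_decides slowDec.lower slowDec.upper ?_⟩
  rw [slowDec.clusterPts]
  exact h1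

end Pool.Agent.Results.MP_ef2672_gt.RandomDimensions
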