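import Pool.Agent.Q219.HE.Perf

/-! MP_ef2672_gt: a quantitative version, with counts, of Voronoi's theorem that the lattices with
the largest normalised minimum are perfect. If `γ(L)` is close to Hermite's constant `γ_n`, then
every cone `⟨v, T v⟩ < 0`, `T` a quadratic form with trace zero and macroscopic Hilbert-Schmidt
norm, contains exponentially many almost shortest vectors of `L`. -/

namespace Pool.Agent.Results.MP_ef2672_gt.ShortVectorsInCones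

open Matrix Pool.Agent.H160R3.Herm Pool.Agent.TH220.HG Pool.Agent.Q219.HE

/-- Let `L = A ℤⁿ` be a lattice with `γ_n ≤ (1 + ε) γ(L)`, `ε ≥ 0`, and least squared length `m` of
a nonzero vector. Let `T` be symmetric with trace zero and `|⟨y, T y⟩| ≤ |y|²` for all `y`,
`0 ≤ τ < 1` and `R > 0`. The number of nonzero `v ∈ L` with `|v|² + τ ⟨v, T v⟩ < R m` is at least
`(R exp (τ² ‖T‖² / (4 n)) / (1 + ε)) ^ (n / 2) - 1`, where `‖T‖² = ∑ T_ij²`. For `R = 1` these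
vectors satisfy `⟨v, T v⟩ < 0` and `|v|² < m / (1 - τ)`. -/
theorem result (n : ℕ) (hn : 0 < n) (A : Matrix (Fin n) (Fin n) ℝ) (hA : A.det ≠ 0) (ε τ R : ℝ)
    (hε : 0 ≤ ε) (hopt : hermite n ≤ (1 + ε) * gam A) (hτ0 : 0 ≤ τ) (hτ1 : τ < 1) (hR : 0 < R)
    (T : Matrix (Fin n) (Fin n) ℝ) (hT : T.IsSymm) (htr : T.trace = 0)
    (hb : ∀ y : Fin n → ℝ, |y ⬝ᵥ (T *ᵥ y)| ≤ y ⬝ᵥ y) :
    (R * Real.exp (τ ^ 2 * (∑ i, ∑ j, T i j ^ 2) / (4 * n)) / (1 + ε)) ^ ((n : ℝ) / 2) - 1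
      ≤ ({w : Fin n → ℤ | w ≠ 0 ∧ nsq A w + τ * qf T A w < R * minSq A}.ncard : ℝ) := by
  have := perf hn hA hε hopt hτ0 hτ1 hR hT htr hb
  linarith

end Pool.Agent.Results.MP_ef2672_gt.ShortVectorsInCones
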